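import Pool.Agent.R484.NCa

/-!
# One number decides whether the Künneth projectors of a dg category are algebraic

`C` is a `ℚ`-linear symmetric monoidal category with a symmetric monoidal additive functor `R` to finite
dimensional super vector spaces over a field `K`. The example for the problem: `C = NChow(k)_F` and the
periodic cyclic homology `HP^±`, over `K = F` or `K = k`; for a saturated dg category `A` the
endomorphisms of `M = U(A)` are the noncommutative correspondences from `A` to itself. The supertrace
`str f` of the realisation of a correspondence `f` is its trace in `C`, that is, the Euler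
characteristic of the Hochschild homology of `A` with coefficients in the bimodule `f`.

`RepresentsEven R z` says that the correspondence `z` has the same pairings `str (z ≫ h)` with all
correspondences `h` as the Künneth projector `π⁺` (`evenTrace h` is the trace of `h` on `HP⁺`), and the
gap of `z` is `dim HP⁺(A) - 3 str (z ∘ z) + 2 str (z ∘ z ∘ z)`.

Theorem. (1) The gap of such a `z` is a nonnegative rational number `q`, and the following are
equivalent: `π⁺` and `π⁻` are algebraic (`CPlus`); `q = 0`; `q ≤ 1`; `z ∘ z` is numerically equivalent
to `z`; `1 - (1 - z^N)^N` realises `π⁺`, for all `N ≥ 1` with `N ≥ dim HP(A)`. (2) `π⁺` and `π⁻` are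
algebraic if and only if there is such a `z` with gap at most one.
-/

set_option autoImplicit false

open CategoryTheory Limits MonoidalCategory

namespace Pool.Agent.Results.MP_eadf0f_ag.GapCriterion

open Pool.Agent.Y112.SR Pool.Agent.R484.NC

universe v u w

theorem result {C : Type u} [Category.{v} C] [Preadditive C] [Linear ℚ C] [MonoidalCategory C]
    [SymmetricCategory C] {K : Type w} [Field K] (R : SuperRealisation C K) (M : C) :
    (∀ z : M ⟶ M, RepresentsEven R z → ∃ q : ℚ, (q : K) = gap R z ∧ 0 ≤ q ∧
      List.TFAE [R.CPlus M, q = 0, q ≤ 1, NumEq R (z ≫ z) z,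
        ∀ N : ℕ, 1 ≤ N → Module.finrank K (R.H.obj M) ≤ N →
          (2 : K) • R.H.map (lift z N) = 𝟙 _ + R.par M]) ∧
    (R.CPlus M ↔ ∃ z : M ⟶ M, RepresentsEven R z ∧ ∃ q : ℚ, (q : K) = gap R z ∧ q ≤ 1) :=
  ⟨fun z hz => gap_criterion R z hz, gap_exists R M⟩

end Pool.Agent.Results.MP_eadf0f_ag.GapCriterion
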