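import Pool.Agent.R907.NcRank

/-!
# The noncommutative Künneth standard conjecture in terms of ranks

Let `M` be the noncommutative motive of a saturated dg category. Let `r` be the rank of the rational
form `tr(f ≫ g)` on the noncommutative correspondences from `M` to itself (the dimension of `End(M)`
modulo numerical equivalence), and let `r₊` and `r₋` be the ranks over the coefficient field of the
forms `tr(f ≫ g | HP⁺)` and `tr(f ≫ g | HP⁻)`. Then `r ≤ r₊ + r₋`, and the noncommutative Künneth
standard conjecture holds for `M` if and only if `r = r₊ + r₋`.
-/

set_option autoImplicit false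

open CategoryTheory Limits MonoidalCategory
open Pool.Agent.Y112.SR Pool.Agent.Y112.KD Pool.Agent.R484.NC Pool.Agent.R255.NcSep
  Pool.Agent.R907

universe v u w

namespace Pool.Agent.Results.MP_eadf0f_ag.RankCriterion

theorem result {C : Type u} [Category.{v} C] [Preadditive C] [Linear ℚ C] [MonoidalCategory C]
    [MonoidalPreadditive C] [MonoidalLinear ℚ C] [SymmetricCategory C] [RightRigidCategory C]
    {K : Type w} [Field K] (R : SuperRealisation C K) (hU : UnitQ C) (M : C) :
    numEndRank hU M ≤ parityRankSum (parity R M) (algOps R M) ∧
      (R.CPlus M ↔ numEndRank hU M = parityRankSum (parity R M) (algOps R M)) :=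
  nc_rank R hU M

end Pool.Agent.Results.MP_eadf0f_ag.RankCriterion
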