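import Pool.Agent.R255.NcSep

/-!
# Noncommutative Kunneth projectors, coefficients and eigenvalues

`C` is a `ℚ`-linear rigid symmetric monoidal category in which the endomorphisms of the unit object are
the rational numbers, for example `NChow(k)_ℚ`, `R` a symmetric monoidal additive functor to finite
dimensional super vector spaces over a field `K`, for example periodic cyclic homology, and `M` an
object, for example the motive of a saturated dg category `A`; `V` is the realisation of `M`.

The following are equivalent.

1. The projector onto the even part of `V` is induced by an endomorphism of `M` (that is, by a
   noncommutative correspondence with rational coefficients): the conjecture `C_NC(A)` for `F = ℚ`.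
2. It is a `K`-linear combination of operators induced by endomorphisms of `M`.
3. For some extension field `L` of `K` it is, on `L ⊗ V`, an `L`-linear combination of them.
4. For some extension field `L` of `K` an `L`-linear combination of them has no common eigenvalue on
   the even and on the odd part.
5. An endomorphism of `M` has no common eigenvalue on the even and on the odd part.
6. For each single even `y` and each single odd `y'` a `K`-linear combination of them, depending on
   `y` and `y'`, fixes `y` and kills `y'`.
7. Each subspace of `V` which is stable under all endomorphisms of `M` is the sum of its even and its
   odd part.

Moreover, if the operator `T` induced by an endomorphism of `M` has no common eigenvalue on the even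
and the odd part, then the projector onto the even part is `g(T)` for a polynomial `g` with rational
coefficients.
-/

set_option autoImplicit false

open CategoryTheory Limits MonoidalCategory Polynomial TensorProduct

namespace Pool.Agent.Results.MP_eadf0f_ag.SeparatedSpectra

open Pool.Agent.Y112.SR Pool.Agent.Y112.KD Pool.Agent.R255.NcLin Pool.Agent.R255.NcSep

universe v u w

theorem result {C : Type u} [Category.{v} C] [Preadditive C] [Linear ℚ C] [MonoidalCategory C]
    [MonoidalPreadditive C] [MonoidalLinear ℚ C] [SymmetricCategory C] [RightRigidCategory C]
    (hU : UnitQ C) {K : Type w} [Field K] (R : SuperRealisation C K) (M : C) :
    EquivalentForms (parity R M) (algOps R M) (R.CPlus M) ∧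
      RationalPolynomial (parity R M) (algOps R M) :=
  ⟨sign_tfae R hU M, rationalPolynomial R hU M⟩

end Pool.Agent.Results.MP_eadf0f_ag.SeparatedSpectra
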