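import Pool.Agent.R911.Sg.Pair

/-!
# One operator on `A ⊗ B` decides the conjecture `C_NC` for `A` and for `B`

`C` is a `ℚ`-linear rigid symmetric monoidal category with a symmetric monoidal additive functor to
finite dimensional super vector spaces over a field `K`, for example the category of noncommutative
Chow motives with coefficients in a field `F` of characteristic zero and periodic cyclic homology.

Let `M` and `N` be objects whose realisations have nonzero even and odd parts, and `φ` a rational
function on `{even, odd} × {even, odd}` which depends on each of its two variables. The operator on
the realisation of `M ⊗ N` which acts as `φ(x, y)` on the tensor product of the part of parity `x`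
and the part of parity `y` is algebraic if and only if the Künneth projectors of `M` and of `N` are
algebraic.
-/

set_option autoImplicit false

open CategoryTheory Limits MonoidalCategory

namespace Pool.Agent.Results.MP_eadf0f_ag.TwoFactors

open Pool.Agent.Y112.SR Pool.Agent.Y112.KD Pool.Agent.R911.Sg

universe v u w

/-- **One diagonal operator on a tensor product decides the Künneth conjecture for both
factors.** -/
theorem result {C : Type u} [Category.{v} C] [Preadditive C] [Linear ℚ C] [MonoidalCategory C]
    [MonoidalPreadditive C] [MonoidalLinear ℚ C] [SymmetricCategory C] [RightRigidCategory C]
    {K : Type w} [Field K] (R : SuperRealisation C K) (M N : C) (hM : Mixed R M)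
    (hN : Mixed R N) (φ : Bool → Bool → ℚ) (hφ : DependsOnBoth φ) :
    (R.CPlus M ∧ R.CPlus N) ↔ ∃ f : M ⊗ N ⟶ M ⊗ N, R.H.map f = pairOp R M N φ :=
  pair_iff hM hN hφ

end Pool.Agent.Results.MP_eadf0f_ag.TwoFactors
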